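import Pool.Agent.Helper40_AEU.Alc

/-!
Squad AEU, Part II: module ELL.
-/

namespace Pool.Agent.AEU.H40

open MeasureTheory Complex Filter Topology Pool.Agent.H62T
open Pool.Agent.H16F (Sublin)

theorem dt_self (a : ℂ) : dt a a = 0 := by unfold dt; ring

theorem ell_triple (s t r : HP) (h1 : s ≠ t) (h2 : s ≠ r) (h3 : t ≠ r) :
    ell {s, t, r} = ell3 s t r := by
  unfold ell
  have e1 : ({s, t, r} : Finset HP).erase s = {t, r} := by
    ext x; simp only [Finset.mem_erase, Finset.mem_insert, Finset.mem_singleton]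
    constructor
    · rintro ⟨a, b | b | b⟩
      · exact absurd b a
      · exact Or.inl b
      · exact Or.inr b
    · rintro (rfl | rfl)
      · exact ⟨h1.symm, by simp⟩
      · exact ⟨h2.symm, by simp⟩
  have e2 : ({s, t, r} : Finset HP).erase t = {s, r} := by
    ext x; simp only [Finset.mem_erase, Finset.mem_insert, Finset.mem_singleton]
    constructor
    · rintro ⟨a, b | b | b⟩
      · exact Or.inl b
      · exact absurd b a
      · exact Or.inr b
    · rintro (rfl | rfl)
      · exact ⟨h1, by simp⟩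
      · exact ⟨h3.symm, by simp⟩
  have e3 : ({s, t, r} : Finset HP).erase r = {s, t} := by
    ext x; simp only [Finset.mem_erase, Finset.mem_insert, Finset.mem_singleton]
    constructor
    · rintro ⟨a, b | b | b⟩
      · exact Or.inl b
      · exact Or.inr b
      · exact absurd b a
    · rintro (rfl | rfl)
      · exact ⟨h2, by simp⟩
      · exact ⟨h3, by simp⟩
  rw [Finset.sum_insert (by simp [h1, h2]), Finset.sum_insert (by simp [h3]), Finset.sum_singleton,
    e1, e2, e3]
  rw [Finset.sum_pair h3, Finset.sum_pair h3, Finset.sum_pair h3, Finset.sum_pair h2,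
    Finset.sum_pair h2, Finset.sum_pair h2, Finset.sum_pair h1, Finset.sum_pair h1,
    Finset.sum_pair h1]
  simp only [dt_self, abs_zero]
  rw [abs_dt_swap r.1 t.1, abs_dt_swap r.1 s.1, abs_dt_swap t.1 s.1]
  unfold ell3
  rw [abs_dt_swap r.1 s.1]
  ring

theorem ip_add (a b c : ℂ) : ip (a + b) c = ip a c + ip b c := by
  unfold ip; simp only [Complex.add_re, Complex.add_im]; ring

theorem ip_smul (x : ℝ) (a b : ℂ) : ip (x • a) b = x * ip a b := by
  unfold ip; simp only [Complex.smul_re, Complex.smul_im, smul_eq_mul]; ring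

/-- the linear relation between the normals of an acute triple -/
theorem rel (s t r : ℂ) : dt t r • s + dt r s • t + dt s t • r = 0 := by
  apply Complex.ext
  · simp only [Complex.add_re, Complex.smul_re, smul_eq_mul, Complex.zero_re]; unfold dt; ring
  · simp only [Complex.add_im, Complex.smul_im, smul_eq_mul, Complex.zero_im]; unfold dt; ring

theorem rel_abs {s t r : ℂ} (hs : ‖s‖ = 1) (ht : ‖t‖ = 1) (hr : ‖r‖ = 1) (h1 : ip s t < 0)
    (h2 : ip t r < 0) (h3 : ip r s < 0) : |dt t r| • s + |dt r s| • t + |dt s t| • r = 0 := by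
  rcases same_sign hs ht hr h1 (by rw [ip_comm]; exact h3) h2 with ⟨a, b, c⟩ | ⟨a, b, c⟩
  · rw [abs_of_pos a, abs_of_pos b, abs_of_pos c]; exact rel s t r
  · rw [abs_of_neg a, abs_of_neg b, abs_of_neg c]
    have := rel s t r
    calc _ = -(dt t r • s + dt r s • t + dt s t • r) := by simp only [neg_smul]; abel
    _ = 0 := by rw [this]; simp

theorem ell3_mv (hact : ActStatement) (g : Iso2) (s t r : HP) (hs : ‖s.1‖ = 1) (ht : ‖t.1‖ = 1)
    (hr : ‖r.1‖ = 1) (h1 : ip s.1 t.1 < 0) (h2 : ip t.1 r.1 < 0) (h3 : ip r.1 s.1 < 0) :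
    ell3 (mv g s) (mv g t) (mv g r) = ell3 s t r := by
  obtain ⟨-, -, -, -, -, -, -, -, hdt, -⟩ := hact
  unfold ell3
  rw [hdt g t r, hdt g r s, hdt g s t]
  have h0 := rel_abs hs ht hr h1 h2 h3
  have h4 := congrArg g.linearIsometryEquiv h0
  simp only [map_add, map_smul, map_zero] at h4
  have h5 := congrArg (fun z => ip z (g 0)) h4
  simp only [ip_add, ip_smul] at h5
  have h6 : ip 0 (g 0) = 0 := by unfold ip; simp
  rw [h6] at h5
  unfold mv
  simp only
  linear_combination 2 * h5

theorem ell (hact : ActStatement) : EllStatement := by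
  have hact' := hact
  obtain ⟨hmul, hone, -, -, -, -, -, hip, hdt, hnorm, -⟩ := hact'
  refine ⟨ell_triple, ell3_swap, ell3_mv hact, ?_⟩
  intro g S hS hu hA
  have hinj : Function.Injective (mv g) := by
    intro a b hab
    have := congrArg (mv g⁻¹) hab
    rwa [← hmul, ← hmul, inv_mul_cancel, hone, hone] at this
  refine ⟨?_, ?_, ?_⟩
  · obtain ⟨s, t, r, h1, h2, h3, rfl⟩ := Finset.card_eq_three.1 hS
    have hms : s ∈ ({s, t, r} : Finset HP) := by simp
    have hmt : t ∈ ({s, t, r} : Finset HP) := by simp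
    have hmr : r ∈ ({s, t, r} : Finset HP) := by simp
    have him : ({s, t, r} : Finset HP).image (mv g) = {mv g s, mv g t, mv g r} := by
      ext x; simp only [Finset.mem_image, Finset.mem_insert, Finset.mem_singleton]
      constructor
      · rintro ⟨y, (rfl | rfl | rfl), rfl⟩ <;> simp
      · rintro (rfl | rfl | rfl)
        exacts [⟨s, by simp, rfl⟩, ⟨t, by simp, rfl⟩, ⟨r, by simp, rfl⟩]
    rw [him, ell_triple _ _ _ (fun h => h1 (hinj h)) (fun h => h2 (hinj h)) (fun h => h3 (hinj h)),
      ell_triple _ _ _ h1 h2 h3]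
    exact ell3_mv hact g s t r (hu s hms) (hu t hmt) (hu r hmr) (hA s hms t hmt h1)
      (hA t hmt r hmr h3) (hA r hmr s hms h2.symm)
  · intro a' ha' b' hb' hab
    obtain ⟨a, ha, rfl⟩ := Finset.mem_image.1 ha'
    obtain ⟨b, hb, rfl⟩ := Finset.mem_image.1 hb'
    rw [hip]
    exact hA a ha b hb (fun h => hab (by rw [h]))
  · rw [Finset.card_image_of_injective _ hinj, hS]

end Pool.Agent.AEU.H40
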