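import Pool.Agent.Helper25_AEU.Stmt

/-!
Squad AEU, Part II: modules ALC and ELL.
-/

namespace Pool.Agent.AEU.H40

open MeasureTheory Complex Filter Topology Pool.Agent.H62T
open Pool.Agent.H16F (Sublin)

theorem normSq_one {u : ℂ} (h : ‖u‖ = 1) : u.re ^ 2 + u.im ^ 2 = 1 := by
  have h1 := Complex.normSq_eq_norm_sq u
  rw [h, Complex.normSq_apply] at h1
  linarith only [h1]

/-- the products of two determinants -/
theorem dt_mul_dt (i j q : ℂ) (hj : ‖j‖ = 1) : dt i j * dt j q = ip i j * ip j q - ip i q := by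
  have h := normSq_one hj
  unfold dt ip
  linear_combination (-(i.re * q.re + i.im * q.im)) * h

theorem dt_sq (i j : ℂ) (hi : ‖i‖ = 1) (hj : ‖j‖ = 1) : dt i j ^ 2 = 1 - ip i j ^ 2 := by
  have h := normSq_one hj
  have h' := normSq_one hi
  unfold dt ip
  linear_combination (i.re ^ 2 + i.im ^ 2) * h + h'

theorem dt_swap (a b : ℂ) : dt a b = - dt b a := by unfold dt; ring

theorem ip_comm (a b : ℂ) : ip a b = ip b a := by unfold ip; ring

theorem abs_dt_swap (a b : ℂ) : |dt a b| = |dt b a| := by rw [dt_swap, abs_neg]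

/-- signs of the determinants of an acute triple -/
theorem same_sign {i j q : ℂ} (_hi : ‖i‖ = 1) (hj : ‖j‖ = 1) (hq : ‖q‖ = 1) (h1 : ip i j < 0)
    (h2 : ip i q < 0) (h3 : ip j q < 0) :
    (0 < dt i j ∧ 0 < dt j q ∧ 0 < dt q i) ∨ (dt i j < 0 ∧ dt j q < 0 ∧ dt q i < 0) := by
  have e1 : 0 < dt i j * dt j q := by
    rw [dt_mul_dt i j q hj]; linarith only [h2, mul_pos_of_neg_of_neg h1 h3]
  have e2 : 0 < dt j q * dt q i := by
    rw [dt_mul_dt j q i hq, ip_comm q i, ip_comm j i]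
    nlinarith [mul_pos_of_neg_of_neg h3 h2]
  rcases pos_and_pos_or_neg_and_neg_of_mul_pos e1 with ⟨a, b⟩ | ⟨a, b⟩
  · left; refine ⟨a, b, ?_⟩
    exact (pos_iff_pos_of_mul_pos e2).1 b
  · right; refine ⟨a, b, ?_⟩
    exact (neg_iff_neg_of_mul_pos e2).1 b

theorem ip_vx (q : ℂ) (i j : HP) : ip q (vx i j) = (j.2 * dt i.1 q - i.2 * dt j.1 q) / dt i.1 j.1 := by
  unfold vx
  have : I * ((j.2 : ℂ) * i.1 - (i.2 : ℂ) * j.1) / (dt i.1 j.1 : ℂ)
      = ((dt i.1 j.1)⁻¹ : ℝ) * (I * ((j.2 : ℂ) * i.1 - (i.2 : ℂ) * j.1)) := by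
    push_cast; rw [div_eq_inv_mul]
  rw [this]
  unfold ip
  simp only [Complex.mul_re, Complex.mul_im, Complex.ofReal_re, Complex.ofReal_im, Complex.sub_re,
    Complex.sub_im, Complex.I_re, Complex.I_im]
  unfold dt
  ring

theorem ell3_eq {i j q : HP} (hi : ‖i.1‖ = 1) (hj : ‖j.1‖ = 1) (hq : ‖q.1‖ = 1)
    (h1 : ip i.1 j.1 < 0) (h2 : ip i.1 q.1 < 0) (h3 : ip j.1 q.1 < 0) :
    ell3 i j q = 2 * |dt i.1 j.1| * (q.2 - ip q.1 (vx i j)) := by
  rw [ip_vx]
  unfold ell3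
  rcases same_sign hi hj hq h1 h2 h3 with ⟨a, b, c⟩ | ⟨a, b, c⟩
  · rw [abs_of_pos a, abs_of_pos b, abs_of_pos c]
    have := a.ne'
    field_simp
    rw [dt_swap q.1 i.1]
    ring
  · rw [abs_of_neg a, abs_of_neg b, abs_of_neg c]
    have := a.ne
    field_simp
    rw [dt_swap q.1 i.1]
    ring

theorem ell3_swap (s t r : HP) : ell3 t s r = ell3 s t r ∧ ell3 s r t = ell3 s t r := by
  unfold ell3
  rw [abs_dt_swap s.1 r.1, abs_dt_swap r.1 t.1, abs_dt_swap t.1 s.1]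
  constructor <;> ring

theorem alc : AlcStatement := by
  intro i j q hi hj hq h1 h2 h3
  have e := ell3_eq hi hj hq h1 h2 h3
  refine ⟨e, fun hA => ?_⟩
  have hs := same_sign hi hj hq h1 h2 h3
  have dij : dt i.1 j.1 ≠ 0 := by rcases hs with h | h; exacts [h.1.ne', h.1.ne]
  have diq : dt i.1 q.1 ≠ 0 := by
    rw [dt_swap]; exact neg_ne_zero.2 (by rcases hs with h | h; exacts [h.2.2.ne', h.2.2.ne])
  have pij : 0 < |dt i.1 j.1| := abs_pos.2 dij
  have piq : 0 < |dt i.1 q.1| := abs_pos.2 diq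
  have e' := ell3_eq hi hq hj h2 h1 (by rw [ip_comm]; exact h3)
  rw [(ell3_swap i j q).2] at e'
  set A := q.2 - ip q.1 (vx i j) with hAdef
  set B := j.2 - ip j.1 (vx i q) with hBdef
  have hlt : |dt i.1 j.1| < 1 := by
    have := dt_sq i.1 j.1 hi hj
    rw [← sq_abs] at this
    nlinarith only [this, abs_nonneg (dt i.1 j.1), mul_pos_of_neg_of_neg h1 h1]
  have hpos : 0 < ell3 i j q := by rw [e]; positivity
  have hAB : |dt i.1 j.1| * A = |dt i.1 q.1| * B := by linarith only [e, e']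
  have hB : 0 < B := by
    have : 0 < |dt i.1 q.1| * B := by rw [← hAB]; positivity
    exact (pos_iff_pos_of_mul_pos this).1 piq
  refine ⟨hpos, by rw [e]; nlinarith only [hA, hlt], hB, ?_⟩
  have s1 := dt_sq i.1 j.1 hi hj
  have s2 := dt_sq i.1 q.1 hi hq
  rw [← sq_abs] at s1 s2
  constructor
  · intro h
    by_contra hc
    push Not at hc
    -- ip i j <= ip i q < 0
    have k1 : ip i.1 q.1 ^ 2 ≤ ip i.1 j.1 ^ 2 := by nlinarith only [hc, h2]
    have k2 : |dt i.1 j.1| ≤ |dt i.1 q.1| := by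
      apply le_of_sq_le_sq _ (abs_nonneg _)
      rw [s1, s2]; linarith
    nlinarith only [e, e', piq, h, hA, k2]
  · intro h
    have k1 : ip i.1 j.1 ^ 2 < ip i.1 q.1 ^ 2 := by nlinarith only [h1, h]
    have k2 : |dt i.1 q.1| < |dt i.1 j.1| := by
      apply lt_of_pow_lt_pow_left₀ 2 (abs_nonneg _)
      rw [s1, s2]; linarith
    by_contra hc
    push Not at hc
    nlinarith only [e, e', piq, hc, hA, k2]

end Pool.Agent.AEU.H40
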