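import Pool.Agent.Helper40_AEU.Alc

/-!
Squad AEU, Part II: modules CGA and CGB.
-/

namespace Pool.Agent.AEU.H40

open MeasureTheory Complex Filter Topology Pool.Agent.H62T
open Pool.Agent.H16F (Sublin)

/-- a unit complex number -/
noncomputable def circ (a : ℂ) (h : ‖a‖ = 1) : Circle := ⟨a, by
  change a ∈ Metric.sphere (0 : ℂ) 1
  exact mem_sphere_zero_iff_norm.2 h⟩

theorem coe_circ (a : ℂ) (h : ‖a‖ = 1) : (circ a h : ℂ) = a := rfl

/-- multiplication by a unit complex number -/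
noncomputable def rot (a : ℂ) (h : ‖a‖ = 1) : ℂ ≃ₗᵢ[ℝ] ℂ := rotation (circ a h)

theorem rot_apply (a : ℂ) (h : ‖a‖ = 1) (z : ℂ) : rot a h z = a * z := by
  unfold rot; rw [rotation_apply, coe_circ]

theorem ip_eq (a b : ℂ) : ip a b = ((starRingEnd ℂ) a * b).re := by
  unfold ip; rw [Complex.mul_re, Complex.conj_re, Complex.conj_im]; ring

theorem dt_eq (a b : ℂ) : dt a b = ((starRingEnd ℂ) a * b).im := by
  unfold dt; rw [Complex.mul_im, Complex.conj_re, Complex.conj_im]; ring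

theorem mul_conj_one {a : ℂ} (h : ‖a‖ = 1) : a * (starRingEnd ℂ) a = 1 := by
  rw [Complex.mul_conj, Complex.normSq_eq_norm_sq, h]; norm_num

theorem sq_eq_cases {x y : ℝ} (h : x ^ 2 = y ^ 2) : x = y ∨ x = -y := sq_eq_sq_iff_eq_or_eq_neg.1 h

/-- a linear isometry mapping a pair of unit vectors to another pair with the same product -/
theorem exU {a b a' b' : ℂ} (ha : ‖a‖ = 1) (hb : ‖b‖ = 1) (ha' : ‖a'‖ = 1) (hb' : ‖b'‖ = 1)
    (h : ip a b = ip a' b') : ∃ U : ℂ ≃ₗᵢ[ℝ] ℂ, U a = a' ∧ U b = b' ∧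
      (∀ z w, ip (U z) (U w) = ip z w) ∧
      ((∀ z w, dt (U z) (U w) = dt z w) ∨ (∀ z w, dt (U z) (U w) = - dt z w)) := by
  have hd : dt a b ^ 2 = dt a' b' ^ 2 := by rw [dt_sq a b ha hb, dt_sq a' b' ha' hb', h]
  have ma := mul_conj_one ha
  have ma' := mul_conj_one ha'
  have mca : (starRingEnd ℂ) a * a = 1 := by rw [mul_comm]; exact ma
  rcases sq_eq_cases hd with hd | hd
  · have hn : ‖a' * (starRingEnd ℂ) a‖ = 1 := by
      rw [norm_mul, ha', Complex.norm_conj, ha, one_mul]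
    have key : (starRingEnd ℂ) a * b = (starRingEnd ℂ) a' * b' := by
      apply Complex.ext
      · rw [← ip_eq, ← ip_eq, h]
      · rw [← dt_eq, ← dt_eq, hd]
    have hcc : (starRingEnd ℂ) (a' * (starRingEnd ℂ) a) * (a' * (starRingEnd ℂ) a) = 1 := by
      rw [mul_comm]; exact mul_conj_one hn
    have hcr : ∀ z w, (starRingEnd ℂ) (rot _ hn z) * (rot _ hn w) = (starRingEnd ℂ) z * w := by
      intro z w
      rw [rot_apply, rot_apply, map_mul]
      calc _ = ((starRingEnd ℂ) (a' * (starRingEnd ℂ) a) * (a' * (starRingEnd ℂ) a))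
          * ((starRingEnd ℂ) z * w) := by ring
      _ = _ := by rw [hcc, one_mul]
    refine ⟨rot _ hn, ?_, ?_, ?_, Or.inl ?_⟩
    · rw [rot_apply, mul_assoc, mca, mul_one]
    · rw [rot_apply, mul_assoc, key, ← mul_assoc, ma', one_mul]
    · intro z w; rw [ip_eq, ip_eq, hcr]
    · intro z w; rw [dt_eq, dt_eq, hcr]
  · have hn : ‖a' * a‖ = 1 := by rw [norm_mul, ha', ha, one_mul]
    have key : a * (starRingEnd ℂ) b = (starRingEnd ℂ) a' * b' := by
      apply Complex.ext
      · rw [← ip_eq, ← h]; unfold ip; rw [Complex.mul_re, Complex.conj_re, Complex.conj_im]; ring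
      · rw [← dt_eq]
        have : dt a' b' = - dt a b := by rw [hd]; ring
        rw [this]; unfold dt; rw [Complex.mul_im, Complex.conj_re, Complex.conj_im]; ring
    have hcc : (starRingEnd ℂ) (a' * a) * (a' * a) = 1 := by
      rw [mul_comm]; exact mul_conj_one hn
    have hU : ∀ z, (Complex.conjLIE.trans (rot _ hn)) z = a' * a * (starRingEnd ℂ) z := by
      intro z
      rw [LinearIsometryEquiv.trans_apply, rot_apply, Complex.conjLIE_apply]
    have hcr : ∀ z w, (starRingEnd ℂ) ((Complex.conjLIE.trans (rot _ hn)) z) *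
        ((Complex.conjLIE.trans (rot _ hn)) w) = z * (starRingEnd ℂ) w := by
      intro z w
      rw [hU, hU, map_mul, Complex.conj_conj]
      calc _ = ((starRingEnd ℂ) (a' * a) * (a' * a)) * (z * (starRingEnd ℂ) w) := by ring
      _ = _ := by rw [hcc, one_mul]
    refine ⟨Complex.conjLIE.trans (rot _ hn), ?_, ?_, ?_, Or.inr ?_⟩
    · rw [hU, mul_assoc, ma, mul_one]
    · rw [hU, mul_assoc, key, ← mul_assoc, ma', one_mul]
    · intro z w; rw [ip_eq, hcr]
      unfold ip; rw [Complex.mul_re, Complex.conj_re, Complex.conj_im]; ring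
    · intro z w; rw [dt_eq, hcr]
      unfold dt; rw [Complex.mul_im, Complex.conj_re, Complex.conj_im]; ring

/-- the isometry with linear part `U` which maps `v` to `v'` -/
noncomputable def iso (U : ℂ ≃ₗᵢ[ℝ] ℂ) (v v' : ℂ) : Iso2 :=
  U.toAffineIsometryEquiv.trans (AffineIsometryEquiv.constVAdd ℝ ℂ (v' - U v))

theorem iso_apply (U : ℂ ≃ₗᵢ[ℝ] ℂ) (v v' z : ℂ) : iso U v v' z = v' - U v + U z := rfl

theorem iso_lin (U : ℂ ≃ₗᵢ[ℝ] ℂ) (v v' : ℂ) : (iso U v v').linearIsometryEquiv = U := by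
  ext z
  have h := (iso U v v').map_vsub z 0
  simp only [vsub_eq_sub, sub_zero] at h
  rw [h, iso_apply, iso_apply]
  simp

theorem mv_iso {U : ℂ ≃ₗᵢ[ℝ] ℂ} (hU : ∀ z w, ip (U z) (U w) = ip z w) {v v' : ℂ} {s s' : HP}
    (h1 : U s.1 = s'.1) (h2 : s.2 - ip s.1 v = s'.2 - ip s'.1 v') : mv (iso U v v') s = s' := by
  unfold mv
  rw [iso_lin, iso_apply]
  apply Prod.ext
  · exact h1
  · simp only [map_zero, add_zero]
    have h3 : ip (U s.1) (v' - U v) = ip (U s.1) v' - ip (U s.1) (U v) := by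
      unfold ip; simp only [Complex.sub_re, Complex.sub_im]; ring
    rw [h3, hU, h1]
    linarith

/-- a vector is determined by its products with two independent vectors -/
theorem eq_of_ip {a b x y : ℂ} (hd : dt a b ≠ 0) (h1 : ip a x = ip a y) (h2 : ip b x = ip b y) :
    x = y := by
  unfold ip at h1 h2
  unfold dt at hd
  have e1 : (a.re * b.im - a.im * b.re) * (x.re - y.re) = 0 := by
    linear_combination b.im * h1 - a.im * h2
  have e2 : (a.re * b.im - a.im * b.re) * (x.im - y.im) = 0 := by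
    linear_combination a.re * h2 - b.re * h1
  apply Complex.ext
  · have := (mul_eq_zero.1 e1).resolve_left hd; linarith
  · have := (mul_eq_zero.1 e2).resolve_left hd; linarith

theorem eq_of_ip_dt {a x y : ℂ} (ha : ‖a‖ = 1) (h1 : ip a x = ip a y) (h2 : dt a x = dt a y) :
    x = y := by
  have hd : dt a (I * a) ≠ 0 := by
    have := normSq_one ha
    have e : dt a (I * a) = 1 := by
      unfold dt; rw [Complex.mul_re, Complex.mul_im, Complex.I_re, Complex.I_im]; linarith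
    rw [e]; norm_num
  apply eq_of_ip hd h1
  have e : ∀ z, ip (I * a) z = dt a z := by
    intro z; unfold ip dt; rw [Complex.mul_re, Complex.mul_im, Complex.I_re, Complex.I_im]; ring
  rw [e, e, h2]

theorem dt_ne {a b : ℂ} (ha : ‖a‖ = 1) (hb : ‖b‖ = 1) (h : |ip a b| < 1) : dt a b ≠ 0 := by
  intro h0
  have := dt_sq a b ha hb
  rw [h0] at this
  have h2 : ip a b ^ 2 < 1 := by rw [← sq_abs]; nlinarith [abs_nonneg (ip a b)]
  nlinarith

theorem on₁ {i j : HP} (hd : dt i.1 j.1 ≠ 0) : ip i.1 (vx i j) = i.2 := by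
  rw [ip_vx]
  have : dt i.1 i.1 = 0 := by unfold dt; ring
  rw [this, dt_swap j.1 i.1]
  field_simp
  ring

theorem on₂ {i j : HP} (hd : dt i.1 j.1 ≠ 0) : ip j.1 (vx i j) = j.2 := by
  rw [ip_vx]
  have : dt j.1 j.1 = 0 := by unfold dt; ring
  rw [this]
  field_simp
  ring

theorem cgb : CgbStatement := by
  intro i j q i' j' q' L c a b h h'
  obtain ⟨U, h1, h2, hip, -⟩ := exU h.ui h.uj h'.ui h'.uj (by rw [h.ij, h'.ij])
  have hd : dt i.1 j.1 ≠ 0 := dt_ne h.ui h.uj (by rw [h.ij]; exact h.lt)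
  have hd' : dt i'.1 j'.1 ≠ 0 := dt_ne h'.ui h'.uj (by rw [h'.ij]; exact h'.lt)
  have h3 : U q.1 = q'.1 := by
    apply eq_of_ip hd'
    · rw [h'.iq, ← h1, hip, h.iq]
    · rw [h'.jq, ← h2, hip, h.jq]
  refine ⟨iso U (vx i j) (vx i' j'), mv_iso hip h1 ?_, mv_iso hip h2 ?_, mv_iso hip h3 ?_⟩
  · rw [on₁ hd, on₁ hd']; ring
  · rw [on₂ hd, on₂ hd']; ring
  · rw [h.len, h'.len]

/-- the third half-plane of a triple of type A -/
theorem third {i j k : HP} {L c c' : ℝ} (h : IsA i j k L c c') :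
    k.2 - ip k.1 (vx i j) = L / 2 * |dt j.1 k.1| := by
  have hd : dt i.1 j.1 ≠ 0 := dt_ne h.ui h.uj (by
    rw [h.ij, abs_of_pos h.pos]; exact h.lt)
  have hd' : dt j.1 k.1 ≠ 0 := dt_ne h.uj h.uk (by
    rw [h.jk, abs_of_pos h.pos']; exact h.lt')
  have e1 := on₂ hd
  have e2 := on₁ hd'
  have e3 := on₂ hd'
  have hlen := h.len
  unfold eA at hlen
  set v := vx i j
  set w := vx j k
  have hj := normSq_one h.uj
  -- v - w = x • (I * j)
  have hx : ∃ x : ℝ, v - w = x • (I * j.1) := by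
    refine ⟨ip (I * j.1) (v - w), ?_⟩
    have e0 : ip j.1 (v - w) = 0 := by
      have : ip j.1 (v - w) = ip j.1 v - ip j.1 w := by
        unfold ip; simp only [Complex.sub_re, Complex.sub_im]; ring
      rw [this, e1, e2]; ring
    generalize v - w = z at e0
    unfold ip at e0 ⊢
    apply Complex.ext
    · simp only [Complex.smul_re, smul_eq_mul, Complex.mul_re, Complex.mul_im, Complex.I_re,
        Complex.I_im]
      linear_combination (-z.re) * hj + j.1.re * e0
    · simp only [Complex.smul_im, smul_eq_mul, Complex.mul_re, Complex.mul_im, Complex.I_re,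
        Complex.I_im]
      linear_combination (-z.im) * hj + j.1.im * e0
  obtain ⟨x, hx⟩ := hx
  have hnx : |x| = L / 2 := by
    rw [hx, norm_smul, norm_mul, Complex.norm_I, h.uj, Real.norm_eq_abs] at hlen
    linarith
  have h4 : k.2 - ip k.1 v = x * -(dt k.1 (I * (I * j.1))) * 0 + (-x) * ip k.1 (I * j.1) := by
    have : ip k.1 v = ip k.1 w + ip k.1 (v - w) := by
      unfold ip; simp only [Complex.sub_re, Complex.sub_im]; ring
    rw [this, e3, hx]
    unfold ip; simp only [Complex.smul_re, Complex.smul_im, smul_eq_mul]; ring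
  have h5 : ip k.1 (I * j.1) = dt j.1 k.1 := by
    unfold ip dt; rw [Complex.mul_re, Complex.mul_im, Complex.I_re, Complex.I_im]; ring
  have h6 : k.2 - ip k.1 v = (-x) * dt j.1 k.1 := by rw [h4, h5]; ring
  have h7 : 0 < k.2 - ip k.1 v := by linarith [h.in₁]
  rw [← abs_of_pos h7, h6, abs_mul, abs_neg, hnx]

theorem cga : CgaStatement := by
  intro i j k i' j' k' L c c' h h'
  obtain ⟨U, h1, h2, hip, hdt⟩ := exU h.ui h.uj h'.ui h'.uj (by rw [h.ij, h'.ij])
  have hd : dt i.1 j.1 ≠ 0 := dt_ne h.ui h.uj (by rw [h.ij, abs_of_pos h.pos]; exact h.lt)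
  have hd' : dt i'.1 j'.1 ≠ 0 := dt_ne h'.ui h'.uj (by rw [h'.ij, abs_of_pos h'.pos]; exact h'.lt)
  have hs : dt j.1 k.1 ^ 2 = dt j'.1 k'.1 ^ 2 := by
    rw [dt_sq _ _ h.uj h.uk, dt_sq _ _ h'.uj h'.uk, h.jk, h'.jk]
  have or1 : 0 < dt (U i.1) (U j.1) * dt (U j.1) (U k.1) := by
    rcases hdt with hdt | hdt
    · rw [hdt, hdt]; exact h.or
    · rw [hdt, hdt, neg_mul_neg]; exact h.or
  have hs' : dt (U j.1) (U k.1) ^ 2 = dt j'.1 k'.1 ^ 2 := by
    rcases hdt with hdt | hdt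
    · rw [hdt]; exact hs
    · rw [hdt, neg_sq]; exact hs
  rw [h1, h2] at or1
  rw [h2] at hs'
  have h3 : U k.1 = k'.1 := by
    apply eq_of_ip_dt h'.uj
    · rw [h'.jk, ← h2, hip, h.jk]
    · rcases sq_eq_cases hs' with e | e
      · exact e
      · exfalso
        rw [e] at or1
        have := h'.or
        nlinarith
  refine ⟨iso U (vx i j) (vx i' j'), mv_iso hip h1 ?_, mv_iso hip h2 ?_, mv_iso hip h3 ?_⟩
  · rw [on₁ hd, on₁ hd']; ring
  · rw [on₂ hd, on₂ hd']; ring
  · rw [third h, third h', ← abs_sq_eq hs]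
where
  abs_sq_eq {x y : ℝ} (h : x ^ 2 = y ^ 2) : |x| = |y| := by
    rcases sq_eq_cases h with e | e <;> simp [e]

end Pool.Agent.AEU.H40
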